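import Mathlib
import Pool.Agent.E8helper61.SI.Stm2

/-!
# H2B: the numerical estimate of the second union bound
-/

set_option autoImplicit false

open Finset

namespace Pool.Agent.E8helper40.SI

open Pool.Agent.E8helper61.SI

theorem two_rpow_nat (x : ℝ) (j : ℕ) : ((2 : ℝ) ^ x) ^ j = (2 : ℝ) ^ (x * j) := by
  rw [Real.rpow_mul (by norm_num), Real.rpow_natCast]

theorem bs_le (hbsp : BspStatement) {ε : ℝ} (hε : 0 < ε) (hε2 : ε ≤ 1 / 2) {r n : ℕ}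
    (hn : (n : ℝ) ≤ (2 : ℝ) ^ ((1 / 2 - ε) * r)) :
    (Bs n ⌊ε / 32 * r⌋₊ : ℝ) ≤ (2 : ℝ) ^ ((r : ℝ) + ε * r ^ 2 / 64) := by
  have hr0 : (0 : ℝ) ≤ r := Nat.cast_nonneg r
  set g := ⌊ε / 32 * r⌋₊ with hg
  have hgr : (g : ℝ) ≤ ε / 32 * r := Nat.floor_le (by positivity)
  have h1 : (Bs n g : ℝ) ≤ ((n : ℝ) + 1) ^ g := by
    have := hbsp.1 n g
    exact_mod_cast this
  have h2 : (n : ℝ) + 1 ≤ (2 : ℝ) ^ (1 + (r : ℝ) / 2) := by
    have h3 : (1 : ℝ) ≤ (2 : ℝ) ^ ((1 / 2 - ε) * r) :=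
      Real.one_le_rpow (by norm_num) (mul_nonneg (by linarith) hr0)
    have h4 : (2 : ℝ) ^ ((1 / 2 - ε) * r) ≤ (2 : ℝ) ^ ((r : ℝ) / 2) := by
      apply Real.rpow_le_rpow_of_exponent_le (by norm_num)
      nlinarith
    rw [Real.rpow_add (by norm_num), Real.rpow_one]
    linarith
  calc (Bs n g : ℝ) ≤ ((n : ℝ) + 1) ^ g := h1
    _ ≤ ((2 : ℝ) ^ (1 + (r : ℝ) / 2)) ^ g := pow_le_pow_left₀ (by positivity) h2 g
    _ = (2 : ℝ) ^ ((1 + (r : ℝ) / 2) * g) := two_rpow_nat _ _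
    _ ≤ (2 : ℝ) ^ ((r : ℝ) + ε * r ^ 2 / 64) := by
      apply Real.rpow_le_rpow_of_exponent_le (by norm_num)
      have h5 : (1 + (r : ℝ) / 2) * g ≤ (1 + (r : ℝ) / 2) * (ε / 32 * r) :=
        mul_le_mul_of_nonneg_left hgr (by positivity)
      nlinarith

theorem sum_le (hpw : PwStatement) {ε : ℝ} (hε : 0 < ε) {r n : ℕ}
    (hn : (n : ℝ) ≤ (2 : ℝ) ^ ((1 / 2 - ε) * r)) (hr : 1 ≤ ε * r) :
    ∑ j ∈ Ioc (r / 16) r, pw n r j ≤ (2 : ℝ) ^ (2 * (r : ℝ) - ε * r ^ 2 / 32) := by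
  have hr0 : (0 : ℝ) ≤ r := Nat.cast_nonneg r
  have hθ : (n : ℝ) ≤ (2 : ℝ) ^ (((r : ℝ) - 1) / 2 - (ε * r - 1 / 2)) := by
    have : ((r : ℝ) - 1) / 2 - (ε * r - 1 / 2) = (1 / 2 - ε) * r := by ring
    rw [this]; exact hn
  have hterm : ∀ j ∈ Ioc (r / 16) r, pw n r j ≤ (2 : ℝ) ^ ((r : ℝ) - ε * r ^ 2 / 32) := by
    intro j hj
    rw [Finset.mem_Ioc] at hj
    have h1 := hpw n r j (ε * r - 1 / 2) hj.2 hθ
    have h2 : ((r.choose j : ℕ) : ℝ) ≤ (2 : ℝ) ^ (r : ℝ) := by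
      rw [Real.rpow_natCast]
      exact_mod_cast Nat.choose_le_two_pow r j
    have h3 : (((n - r).choose j : ℕ) : ℝ) ≤ (n : ℝ) ^ j := by
      have h4 : (n - r).choose j ≤ n ^ j :=
        (Nat.choose_le_choose j (Nat.sub_le n r)).trans (Nat.choose_le_pow n j)
      exact_mod_cast h4
    have hj2 : (r : ℝ) / 16 ≤ j := by
      have h5 : r / 16 + 1 ≤ j := hj.1
      have h6 : r < 16 * (r / 16 + 1) := by omega
      have h7 : r ≤ 16 * j := by omega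
      have h8 : (r : ℝ) ≤ 16 * j := by exact_mod_cast h7
      linarith
    unfold pw
    have h9 : (0 : ℝ) < 2 ^ (j * (r - j) + j.choose 2) := by positivity
    calc ((r.choose j : ℕ) : ℝ) * (((n - r).choose j : ℕ) : ℝ) / 2 ^ (j * (r - j) + j.choose 2)
        ≤ ((2 : ℝ) ^ (r : ℝ) * (n : ℝ) ^ j) / 2 ^ (j * (r - j) + j.choose 2) := by
          apply div_le_div_of_nonneg_right _ h9.le
          exact mul_le_mul h2 h3 (Nat.cast_nonneg _) (by positivity)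
      _ = (2 : ℝ) ^ (r : ℝ) * ((n : ℝ) ^ j / 2 ^ (j * (r - j) + j.choose 2)) := by
          rw [mul_div_assoc]
      _ ≤ (2 : ℝ) ^ (r : ℝ) * (2 : ℝ) ^ (-((ε * r - 1 / 2) * j)) :=
          mul_le_mul_of_nonneg_left h1 (by positivity)
      _ = (2 : ℝ) ^ ((r : ℝ) + -((ε * r - 1 / 2) * j)) := by
          rw [Real.rpow_add (by norm_num)]
      _ ≤ (2 : ℝ) ^ ((r : ℝ) - ε * r ^ 2 / 32) := by
          apply Real.rpow_le_rpow_of_exponent_le (by norm_num)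
          have h10 : ε * r / 2 ≤ ε * r - 1 / 2 := by linarith
          have h11 : (ε * r / 2) * ((r : ℝ) / 16) ≤ (ε * r - 1 / 2) * j :=
            mul_le_mul h10 hj2 (by positivity) (by linarith)
          nlinarith
  have hcard : ((Ioc (r / 16) r).card : ℝ) ≤ (2 : ℝ) ^ (r : ℝ) := by
    rw [Real.rpow_natCast, Nat.card_Ioc]
    have h1 : r - r / 16 ≤ r := Nat.sub_le _ _
    have h2 : r ≤ 2 ^ r := Nat.lt_two_pow_self.le
    exact_mod_cast h1.trans h2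
  calc ∑ j ∈ Ioc (r / 16) r, pw n r j
      ≤ ∑ _j ∈ Ioc (r / 16) r, (2 : ℝ) ^ ((r : ℝ) - ε * r ^ 2 / 32) := Finset.sum_le_sum hterm
    _ = ((Ioc (r / 16) r).card : ℝ) * (2 : ℝ) ^ ((r : ℝ) - ε * r ^ 2 / 32) := by
        rw [Finset.sum_const, nsmul_eq_mul]
    _ ≤ (2 : ℝ) ^ (r : ℝ) * (2 : ℝ) ^ ((r : ℝ) - ε * r ^ 2 / 32) :=
        mul_le_mul_of_nonneg_right hcard (by positivity)
    _ = (2 : ℝ) ^ (2 * (r : ℝ) - ε * r ^ 2 / 32) := by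
        rw [← Real.rpow_add (by norm_num)]
        congr 1
        ring

theorem three_quarters : (3 / 4 : ℝ) ≤ (2 : ℝ) ^ (-(2 / 5) : ℝ) := by
  have h1 : (0 : ℝ) ≤ (2 : ℝ) ^ (-(2 / 5) : ℝ) := by positivity
  have h2 : (3 / 4 : ℝ) ^ 5 ≤ ((2 : ℝ) ^ (-(2 / 5) : ℝ)) ^ 5 := by
    rw [two_rpow_nat]
    have : (-(2 / 5) : ℝ) * ((5 : ℕ) : ℝ) = -2 := by norm_num
    rw [this]
    rw [Real.rpow_neg (by norm_num)]
    norm_num
  exact le_of_pow_le_pow_left₀ (by norm_num) h1 h2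

theorem second_le (hbsp : BspStatement) {ε : ℝ} (hε : 0 < ε) {r n : ℕ}
    (hn : (n : ℝ) ≤ (2 : ℝ) ^ ((1 / 2 - ε) * r)) :
    (((n - r).choose r : ℕ) : ℝ) * ((Bs r (r / 16) : ℕ) : ℝ) ^ r / (2 ^ r) ^ r ≤
      (2 : ℝ) ^ (-((r : ℝ) ^ 2 / 10)) := by
  have hr0 : (0 : ℝ) ≤ r := Nat.cast_nonneg r
  have h3 : (((n - r).choose r : ℕ) : ℝ) ≤ (n : ℝ) ^ r := by
    have h4 : (n - r).choose r ≤ n ^ r :=
      (Nat.choose_le_choose r (Nat.sub_le n r)).trans (Nat.choose_le_pow n r)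
    exact_mod_cast h4
  have hB : ((Bs r (r / 16) : ℕ) : ℝ) ^ 4 ≤ (3 : ℝ) ^ r := by
    have := hbsp.2 r (r / 16) (by omega)
    exact_mod_cast this
  have hn4 : (n : ℝ) ^ 4 ≤ (4 : ℝ) ^ r := by
    calc (n : ℝ) ^ 4 ≤ ((2 : ℝ) ^ ((1 / 2 - ε) * r)) ^ 4 :=
          pow_le_pow_left₀ (Nat.cast_nonneg _) hn 4
      _ = (2 : ℝ) ^ ((1 / 2 - ε) * r * (4 : ℕ)) := two_rpow_nat _ _
      _ ≤ (2 : ℝ) ^ ((2 : ℝ) * r) := by
          apply Real.rpow_le_rpow_of_exponent_le (by norm_num)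
          push_cast
          nlinarith
      _ = (4 : ℝ) ^ r := by
          rw [Real.rpow_mul (by norm_num), Real.rpow_natCast]
          norm_num
  set y : ℝ := (n : ℝ) * ((Bs r (r / 16) : ℕ) : ℝ) / 2 ^ r with hy
  have hy0 : 0 ≤ y := by positivity
  have hy4 : y ^ 4 ≤ (3 / 4 : ℝ) ^ r := by
    have h5 : y ^ 4 = ((n : ℝ) ^ 4 * ((Bs r (r / 16) : ℕ) : ℝ) ^ 4) / (16 : ℝ) ^ r := by
      rw [hy, div_pow, mul_pow, ← pow_mul, mul_comm r 4, pow_mul]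
      norm_num
    rw [h5]
    have h6 : (3 / 4 : ℝ) ^ r = ((4 : ℝ) ^ r * (3 : ℝ) ^ r) / (16 : ℝ) ^ r := by
      rw [← mul_pow, ← div_pow]
      norm_num
    rw [h6]
    apply div_le_div_of_nonneg_right _ (by positivity)
    exact mul_le_mul hn4 hB (by positivity) (by positivity)
  have hy1 : y ≤ (2 : ℝ) ^ (-((r : ℝ) / 10)) := by
    have h7 : y ^ 4 ≤ ((2 : ℝ) ^ (-((r : ℝ) / 10))) ^ 4 := by
      calc y ^ 4 ≤ (3 / 4 : ℝ) ^ r := hy4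
        _ ≤ ((2 : ℝ) ^ (-(2 / 5) : ℝ)) ^ r := pow_le_pow_left₀ (by norm_num) three_quarters r
        _ = (2 : ℝ) ^ ((-(2 / 5) : ℝ) * r) := two_rpow_nat _ _
        _ = ((2 : ℝ) ^ (-((r : ℝ) / 10))) ^ 4 := by
            rw [two_rpow_nat]
            congr 1
            push_cast
            ring
    exact le_of_pow_le_pow_left₀ (by norm_num) (by positivity) h7
  calc (((n - r).choose r : ℕ) : ℝ) * ((Bs r (r / 16) : ℕ) : ℝ) ^ r / (2 ^ r) ^ r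
      ≤ ((n : ℝ) ^ r * ((Bs r (r / 16) : ℕ) : ℝ) ^ r) / (2 ^ r) ^ r := by
        apply div_le_div_of_nonneg_right _ (by positivity)
        exact mul_le_mul_of_nonneg_right h3 (by positivity)
    _ = y ^ r := by rw [hy, div_pow, mul_pow]
    _ ≤ ((2 : ℝ) ^ (-((r : ℝ) / 10))) ^ r := pow_le_pow_left₀ hy0 hy1 r
    _ = (2 : ℝ) ^ (-((r : ℝ) ^ 2 / 10)) := by
        rw [two_rpow_nat]
        congr 1
        ring

/-- H2B -/
theorem h2b : H2BStatement := by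
  intro hpw hbsp ε hε hε2 m
  refine ⟨⌈64 * ((m : ℝ) + 6) / ε⌉₊ + 1, ?_⟩
  intro r n hr hn
  have hrr : 64 * ((m : ℝ) + 6) / ε ≤ r := by
    have h1 : ⌈64 * ((m : ℝ) + 6) / ε⌉₊ ≤ r := by omega
    exact Nat.ceil_le.mp h1
  have hr1 : (1 : ℝ) ≤ r := by
    have : 1 ≤ r := by omega
    exact_mod_cast this
  have hm0 : (0 : ℝ) ≤ m := Nat.cast_nonneg m
  have hr64 : 64 * ((m : ℝ) + 6) ≤ ε * r := by
    rw [div_le_iff₀ hε] at hrr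
    linarith
  have hB := bs_le hbsp hε hε2 hn
  have hS1 := sum_le hpw hε hn (by linarith)
  have hS2 := second_le hbsp hε hn
  have hqr : qr n r (r / 16) r ≤ (2 : ℝ) ^ (2 * (r : ℝ) - ε * r ^ 2 / 32) +
      (2 : ℝ) ^ (-((r : ℝ) ^ 2 / 10)) := by
    unfold qr
    exact add_le_add hS1 hS2
  have hqr0 : 0 ≤ qr n r (r / 16) r := by
    unfold qr
    have : ∀ j ∈ Ioc (r / 16) r, 0 ≤ pw n r j := by
      intro j _
      unfold pw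
      positivity
    have h2 := Finset.sum_nonneg this
    positivity
  have hc : (2 : ℝ) ^ ((m + 1) * r) = (2 : ℝ) ^ (((m : ℝ) + 1) * r) := by
    rw [← Real.rpow_natCast]
    push_cast
    rfl
  have hrm : ((m : ℝ) + 6) * r ≤ ε * r ^ 2 / 64 := by nlinarith
  have e1 : (2 : ℝ) ^ (((m : ℝ) + 1) * r) * (2 : ℝ) ^ ((r : ℝ) + ε * r ^ 2 / 64) *
      (2 : ℝ) ^ (2 * (r : ℝ) - ε * r ^ 2 / 32) ≤ 1 / 4 := by
    rw [← Real.rpow_add (by norm_num), ← Real.rpow_add (by norm_num)]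
    have h1 : ((m : ℝ) + 1) * r + (r + ε * r ^ 2 / 64) + (2 * (r : ℝ) - ε * r ^ 2 / 32) ≤ -2 := by
      nlinarith
    calc (2 : ℝ) ^ (((m : ℝ) + 1) * r + (r + ε * r ^ 2 / 64) + (2 * (r : ℝ) - ε * r ^ 2 / 32))
        ≤ (2 : ℝ) ^ (-2 : ℝ) := Real.rpow_le_rpow_of_exponent_le (by norm_num) h1
      _ = 1 / 4 := by rw [Real.rpow_neg (by norm_num)]; norm_num
  have e2 : (2 : ℝ) ^ (((m : ℝ) + 1) * r) * (2 : ℝ) ^ ((r : ℝ) + ε * r ^ 2 / 64) *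
      (2 : ℝ) ^ (-((r : ℝ) ^ 2 / 10)) ≤ 1 / 4 := by
    rw [← Real.rpow_add (by norm_num), ← Real.rpow_add (by norm_num)]
    have h1 : ((m : ℝ) + 1) * r + (r + ε * r ^ 2 / 64) + (-((r : ℝ) ^ 2 / 10)) ≤ -2 := by
      have h3 : ε * (r : ℝ) ^ 2 / 64 ≤ (r : ℝ) ^ 2 / 128 := by nlinarith [sq_nonneg (r : ℝ)]
      have h4 : ((m : ℝ) + 6) * r ≤ (r : ℝ) ^ 2 / 128 := hrm.trans h3
      nlinarith
    calc (2 : ℝ) ^ (((m : ℝ) + 1) * r + (r + ε * r ^ 2 / 64) + (-((r : ℝ) ^ 2 / 10)))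
        ≤ (2 : ℝ) ^ (-2 : ℝ) := Real.rpow_le_rpow_of_exponent_le (by norm_num) h1
      _ = 1 / 4 := by rw [Real.rpow_neg (by norm_num)]; norm_num
  rw [hc]
  calc (2 : ℝ) ^ (((m : ℝ) + 1) * r) * (Bs n ⌊ε / 32 * r⌋₊ : ℝ) * qr n r (r / 16) r
      ≤ (2 : ℝ) ^ (((m : ℝ) + 1) * r) * (2 : ℝ) ^ ((r : ℝ) + ε * r ^ 2 / 64) *
        ((2 : ℝ) ^ (2 * (r : ℝ) - ε * r ^ 2 / 32) + (2 : ℝ) ^ (-((r : ℝ) ^ 2 / 10))) := by
        apply mul_le_mul _ hqr hqr0 (by positivity)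
        exact mul_le_mul_of_nonneg_left hB (by positivity)
    _ ≤ 1 / 2 := by
        rw [mul_add]
        linarith

end Pool.Agent.E8helper40.SI
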